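import Mathlib
import Pool.Agent.Helper61.FatouCoord
import Pool.Agent.Helper61.TauGerm
import Pool.Agent.Helper61.DiscMap

/-!
For every `r > 0` and every `f`, holomorphic on the closed disc of radius `r`, with Taylor
expansion `f z = z^2 + a_3 z^3 + ...` at `0` (complex coefficients) and at least one nonzero
coefficient of odd index, the compact disc `K_{f,r} = {(z^2, f (conj z)) : |z| ≤ r}` admits an
attached analytic variety, in fact an attached analytic disc.
-/

namespace Pool.Agent.Results.MP_543b58_an.AttachedDisc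

open Complex Metric Set Filter Topology
open Pool.Agent.Helper61

/-- The compact disc `K_{f,r} = {(z^2, f (conj z)) : |z| ≤ r}` in `ℂ²`. -/
def K (f : ℂ → ℂ) (r : ℝ) : Set (ℂ × ℂ) :=
  {x | ∃ z : ℂ, ‖z‖ ≤ r ∧ x = (z ^ 2, f ((starRingEnd ℂ) z))}

theorem result (r : ℝ) (hr : 0 < r) (f : ℂ → ℂ) (hf : AnalyticOnNhd ℂ f (closedBall 0 r))
    (h0 : f 0 = 0) (h1 : deriv f 0 = 0) (h2 : iteratedDeriv 2 f 0 = 2)
    (hodd : ∃ n : ℕ, 1 ≤ n ∧ iteratedDeriv (2 * n + 1) f 0 ≠ 0) :
    ∃ φ : ℂ → ℂ × ℂ,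
      ContinuousOn φ (closedBall 0 1) ∧ DifferentiableOn ℂ φ (ball 0 1) ∧
      (∀ w ∈ sphere (0 : ℂ) 1, φ w ∈ K f r) ∧
      ∃ w ∈ ball (0 : ℂ) 1, φ w ∉ K f r := by
  have hfa : AnalyticAt ℂ f 0 := hf 0 (by simp [hr.le])
  obtain ⟨τ, q, m, hm, hq, hq0, hτ, hfτ, hfne⟩ := TauGerm.exists_tau hfa h0 h1 h2 hodd
  have hev := hfτ.and hfne
  rw [Metric.eventually_nhds_iff] at hev
  obtain ⟨δ1, hδ1, hE⟩ := hev
  simp only [dist_zero_right] at hE
  set δ : ℝ := min δ1 r with hδ
  have hδpos : 0 < δ := lt_min hδ1 hr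
  obtain ⟨p, hp1, hp2, hp3⟩ := FatouCoord.exists_fatou hm hq hq0 hτ hδpos
  have hpd : ∀ ζ : ℂ, 0 < ζ.re → DifferentiableAt ℂ p ζ := fun ζ hζ =>
    (hp1 ζ hζ).differentiableAt ((isOpen_lt continuous_const Complex.continuous_re).mem_nhds hζ)
  have hpδ1 : ∀ ζ : ℂ, 0 < ζ.re → ‖p ζ‖ < δ1 := fun ζ hζ =>
    lt_of_lt_of_le (hp2 ζ hζ).1 (min_le_left _ _)
  have hpr : ∀ ζ : ℂ, 0 < ζ.re → ‖p ζ‖ < r := fun ζ hζ =>
    lt_of_lt_of_le (hp2 ζ hζ).1 (min_le_right _ _)
  -- the two coordinate functions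
  set c : ℂ → ℂ := ⇑(starRingEnd ℂ) with hc
  set G : ℂ → ℂ := fun w => c (p (c (DiscMap.zeta w))) with hG
  set H : ℂ → ℂ := fun w => p (2 - DiscMap.zeta w) with hH
  have hre : ∀ w : ℂ, w ≠ 1 → ‖w‖ ≤ 1 → 0 < (c (DiscMap.zeta w)).re ∧
      0 < (2 - DiscMap.zeta w).re := by
    intro w hw h
    have h3 := DiscMap.zeta_re_mem hw h
    constructor
    · rw [hc, Complex.conj_re]; linarith
    · simp only [sub_re, re_ofNat]; linarith
  have hGd : ∀ w : ℂ, w ≠ 1 → w ≠ -1 → ‖w‖ ≤ 1 → DifferentiableAt ℂ G w := by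
    intro w hw hw' h
    have h3 := hpd _ (hre w hw h).1
    have h4 : DifferentiableAt ℂ (c ∘ p ∘ c) (DiscMap.zeta w) := by
      rw [hc, differentiableAt_conj_conj_iff]
      exact h3
    exact DifferentiableAt.comp (g := c ∘ p ∘ c) w h4 (DiscMap.differentiableAt_zeta hw hw' h)
  have hHd : ∀ w : ℂ, w ≠ 1 → w ≠ -1 → ‖w‖ ≤ 1 → DifferentiableAt ℂ H w := by
    intro w hw hw' h
    have h3 := hpd _ (hre w hw h).2
    have h4 : DifferentiableAt ℂ (fun w => 2 - DiscMap.zeta w) w :=
      (DiscMap.differentiableAt_zeta hw hw' h).const_sub 2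
    exact DifferentiableAt.comp w h3 h4
  have hfd : ∀ z : ℂ, ‖z‖ ≤ r → DifferentiableAt ℂ f z := fun z hz =>
    (hf z (by simpa using hz)).differentiableAt
  have hfHd : ∀ w : ℂ, w ≠ 1 → w ≠ -1 → ‖w‖ ≤ 1 → DifferentiableAt ℂ (fun w => f (H w)) w := by
    intro w hw hw' h
    exact DifferentiableAt.comp w (hfd _ (hpr _ (hre w hw h).2).le) (hHd w hw hw' h)
  set φ0 : ℂ → ℂ × ℂ := fun w => (G w ^ 2, f (H w)) with hφ0
  have hφ0d : ∀ w : ℂ, w ≠ 1 → w ≠ -1 → ‖w‖ ≤ 1 → DifferentiableAt ℂ φ0 w := fun w hw hw' h =>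
    ((hGd w hw hw' h).pow 2).prodMk (hfHd w hw hw' h)
  classical
  set φ : ℂ → ℂ × ℂ := fun w => if w = 1 ∨ w = -1 then (0, 0) else φ0 w with hφ
  have hφeq : ∀ w : ℂ, w ≠ 1 → w ≠ -1 → φ =ᶠ[𝓝 w] φ0 := by
    intro w hw hw'
    filter_upwards [isOpen_ne.mem_nhds hw, isOpen_ne.mem_nhds hw'] with x hx hx'
    simp only [hφ]
    rw [if_neg]
    rintro (h | h)
    · exact hx h
    · exact hx' h
  have hφd : ∀ w : ℂ, w ≠ 1 → w ≠ -1 → ‖w‖ ≤ 1 → DifferentiableAt ℂ φ w := fun w hw hw' h =>
    (hφ0d w hw hw' h).congr_of_eventuallyEq (hφeq w hw hw')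
  have hball : ∀ w ∈ ball (0 : ℂ) 1, w ≠ 1 ∧ w ≠ -1 ∧ ‖w‖ ≤ 1 := by
    intro w hw
    have hw' : ‖w‖ < 1 := by simpa using hw
    refine ⟨?_, ?_, hw'.le⟩
    · rintro rfl; simp at hw'
    · rintro rfl; simp at hw'
  -- smallness near the two ends
  have hends : ∀ cc : ℂ, (cc = 1 ∨ cc = -1) → ∀ ε > 0, ∀ᶠ w in 𝓝[≠] cc, ‖w‖ ≤ 1 → w ≠ 1 →
      ‖G w‖ < ε ∧ ‖H w‖ < ε := by
    intro cc hcc ε hε
    obtain ⟨R, hR⟩ := hp3 ε hε
    filter_upwards [(DiscMap.tendsto_norm_zeta hcc).eventually_ge_atTop (R + 2)] with w hw h hw1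
    have h3 := hre w hw1 h
    constructor
    · have : ‖G w‖ = ‖p (c (DiscMap.zeta w))‖ := by simp only [hG, hc]; exact Complex.norm_conj _
      rw [this]
      apply hR _ h3.1
      rw [hc, Complex.norm_conj]; linarith
    · apply hR _ h3.2
      have h4 : ‖DiscMap.zeta w‖ ≤ ‖2 - DiscMap.zeta w‖ + ‖(2 : ℂ)‖ := by
        have : DiscMap.zeta w = - (2 - DiscMap.zeta w) + 2 := by ring
        calc ‖DiscMap.zeta w‖ = ‖- (2 - DiscMap.zeta w) + 2‖ := by rw [← this]
          _ ≤ ‖- (2 - DiscMap.zeta w)‖ + ‖(2 : ℂ)‖ := norm_add_le _ _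
          _ = _ := by rw [norm_neg]
      have h5 : ‖(2 : ℂ)‖ = 2 := by norm_num
      linarith
  have hf0 : ∀ ε > 0, ∃ η > 0, ∀ z : ℂ, ‖z‖ < η → ‖f z‖ < ε := by
    intro ε hε
    have h3 : ∀ᶠ z in 𝓝 (0 : ℂ), ‖f z‖ < ε := by
      apply hfa.continuousAt.norm.tendsto.eventually_lt_const
      rw [h0]; simpa using hε
    rw [Metric.eventually_nhds_iff] at h3
    obtain ⟨η, hη, h4⟩ := h3
    exact ⟨η, hη, fun z hz => h4 (by simpa using hz)⟩
  have hcont_ends : ∀ cc : ℂ, (cc = 1 ∨ cc = -1) → ContinuousWithinAt φ (closedBall 0 1) cc := by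
    intro cc hcc
    have hφcc : φ cc = 0 := by simp only [hφ]; rw [if_pos hcc]; rfl
    unfold ContinuousWithinAt
    rw [hφcc, Metric.tendsto_nhds]
    intro ε hε
    obtain ⟨η, hη, hη2⟩ := hf0 ε hε
    have h3 := hends cc hcc (min η (min ε 1)) (lt_min hη (lt_min hε one_pos))
    rw [eventually_nhdsWithin_iff] at h3
    rw [eventually_nhdsWithin_iff]
    filter_upwards [h3] with w hw hwS
    have hwn : ‖w‖ ≤ 1 := by simpa using hwS
    rw [dist_zero_right]
    by_cases hcase : w = 1 ∨ w = -1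
    · simp only [hφ]; rw [if_pos hcase]; simpa using hε
    · have hwcc : w ≠ cc := by
        rintro rfl; exact hcase hcc
      push Not at hcase
      have h4 := hw hwcc hwn hcase.1
      have hval : φ w = φ0 w := by
        simp only [hφ]; rw [if_neg]; rintro (h | h); exacts [hcase.1 h, hcase.2 h]
      rw [hval]
      have h5 : ‖G w ^ 2‖ < ε := by
        rw [norm_pow]
        have h6 : ‖G w‖ < ε := lt_of_lt_of_le h4.1 ((min_le_right _ _).trans (min_le_left _ _))
        have h7 : ‖G w‖ < 1 := lt_of_lt_of_le h4.1 ((min_le_right _ _).trans (min_le_right _ _))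
        nlinarith [norm_nonneg (G w)]
      have h6 : ‖f (H w)‖ < ε := hη2 _ (lt_of_lt_of_le h4.2 (min_le_left _ _))
      simp only [hφ0, Prod.norm_def]
      exact max_lt h5 h6
  refine ⟨φ, ?_, ?_, ?_, ?_⟩
  · -- continuity
    intro w hw
    have hwn : ‖w‖ ≤ 1 := by simpa using hw
    by_cases hcase : w = 1 ∨ w = -1
    · exact hcont_ends w hcase
    · push Not at hcase
      exact (hφd w hcase.1 hcase.2 hwn).continuousAt.continuousWithinAt
  · intro w hw
    obtain ⟨ha, hb, hcc⟩ := hball w hw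
    exact (hφd w ha hb hcc).differentiableWithinAt
  · -- boundary values
    intro w hw
    have hwn : ‖w‖ = 1 := by simpa using hw
    by_cases hcase : w = 1 ∨ w = -1
    · refine ⟨0, by simpa using hr.le, ?_⟩
      simp only [hφ]
      rw [if_pos hcase]
      simp [h0]
    · push Not at hcase
      have hval : φ w = φ0 w := by
        simp only [hφ]; rw [if_neg]; rintro (h | h); exacts [hcase.1 h, hcase.2 h]
      have h3 := hre w hcase.1 hwn.le
      rw [hval]
      rcases DiscMap.zeta_re_sphere hcase.1 hcase.2 hwn with h4 | h4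
      · -- `Re ζ = 1`: `h = conj g`
        have h5 : (2 : ℂ) - DiscMap.zeta w = c (DiscMap.zeta w) := by
          apply Complex.ext
          · simp only [sub_re, re_ofNat, hc, Complex.conj_re]; linarith
          · simp only [sub_im, im_ofNat, hc, Complex.conj_im]; ring
        refine ⟨G w, ?_, ?_⟩
        · have : ‖G w‖ = ‖p (c (DiscMap.zeta w))‖ := by simp only [hG, hc]; exact Complex.norm_conj _
          rw [this]
          exact (hpr _ h3.1).le
        · simp only [hφ0, hH, hG]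
          rw [h5]
          simp only [hc, Complex.conj_conj]
      · -- `Re ζ = 3/2`: `h = τ (conj g)`
        have h5 : (2 : ℂ) - DiscMap.zeta w + 1 = c (DiscMap.zeta w) := by
          apply Complex.ext
          · simp only [add_re, sub_re, re_ofNat, one_re, hc, Complex.conj_re]; linarith
          · simp only [add_im, sub_im, im_ofNat, one_im, hc, Complex.conj_im]; ring
        have h6 := (hp2 _ h3.2).2.2
        rw [h5] at h6
        refine ⟨- G w, ?_, ?_⟩
        · have : ‖G w‖ = ‖p (c (DiscMap.zeta w))‖ := by simp only [hG, hc]; exact Complex.norm_conj _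
          rw [norm_neg, this]
          exact (hpr _ h3.1).le
        · simp only [hφ0, hH, hG]
          rw [h6, (hE (hpδ1 _ h3.1)).1]
          simp only [hc, map_neg, Complex.conj_conj, neg_sq]
  · -- the disc is not contained in `K`
    by_contra hcon
    push Not at hcon
    set A : ℂ → ℂ := fun w => f (H w) with hA
    have hAd : ∀ w ∈ ball (0 : ℂ) 1, DifferentiableAt ℂ A w := by
      intro w hw
      obtain ⟨ha, hb, hcc⟩ := hball w hw
      exact hfHd w ha hb hcc
    -- for a sign `s`, the holomorphic function `conj (f (s * conj g))`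
    set C : ℂ → ℂ → ℂ := fun s w => c (f (s * c (G w))) with hC
    have hCd : ∀ s : ℂ, ‖s‖ ≤ 1 → ∀ w ∈ ball (0 : ℂ) 1, DifferentiableAt ℂ (C s) w := by
      intro s hs w hw
      obtain ⟨ha, hb, hcc⟩ := hball w hw
      have h3 := hGd w ha hb hcc
      have hGr : ‖G w‖ ≤ r := by
        have : ‖G w‖ = ‖p (c (DiscMap.zeta w))‖ := by simp only [hG, hc]; exact Complex.norm_conj _
        rw [this]
        exact (hpr _ (hre w ha hcc).1).le
      have h4 : DifferentiableAt ℂ (fun z => f (s * z)) (c (G w)) := by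
        have h5 : DifferentiableAt ℂ f (s * c (G w)) := by
          apply hfd
          rw [norm_mul, hc, Complex.norm_conj]
          calc ‖s‖ * ‖G w‖ ≤ 1 * ‖G w‖ := by gcongr
            _ ≤ r := by rw [one_mul]; exact hGr
        exact DifferentiableAt.comp (c (G w)) h5 (differentiableAt_id.const_mul s)
      have h5 : DifferentiableAt ℂ (c ∘ (fun z => f (s * z)) ∘ c) (G w) := by
        rw [hc, differentiableAt_conj_conj_iff]
        exact h4
      exact DifferentiableAt.comp (g := c ∘ (fun z => f (s * z)) ∘ c) w h5 h3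
    have hcover : ∀ w ∈ ball (0 : ℂ) 1, A w = c (C 1 w) ∨ A w = c (C (-1) w) := by
      intro w hw
      obtain ⟨ha, hb, hcc⟩ := hball w hw
      obtain ⟨z, hz, hzeq⟩ := hcon w hw
      have hval : φ w = φ0 w := by
        simp only [hφ]; rw [if_neg]; rintro (h | h); exacts [ha h, hb h]
      rw [hval] at hzeq
      simp only [hφ0, Prod.mk.injEq] at hzeq
      obtain ⟨e1, e2⟩ := hzeq
      rcases sq_eq_sq_iff_eq_or_eq_neg.mp e1 with h3 | h3
      · left
        simp only [hA, hC, hc] at *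
        rw [e2, Complex.conj_conj, one_mul, h3]
      · right
        simp only [hA, hC, hc] at *
        rw [e2, Complex.conj_conj, h3]
        simp
    -- a nonempty open set on which `A` agrees with one of the two antiholomorphic functions
    have hopen : ∃ s : ℂ, ‖s‖ ≤ 1 ∧ ∃ w0 ∈ ball (0 : ℂ) 1, ∀ᶠ w in 𝓝 w0, A w = c (C s w) := by
      by_cases hall : ∀ w ∈ ball (0 : ℂ) 1, A w = c (C 1 w)
      · refine ⟨1, by simp, 0, by simp, ?_⟩
        filter_upwards [isOpen_ball.mem_nhds (show (0 : ℂ) ∈ ball (0 : ℂ) 1 by simp)] with w hw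
        exact hall w hw
      · push Not at hall
        obtain ⟨w0, hw0, hne⟩ := hall
        refine ⟨-1, by simp, w0, hw0, ?_⟩
        have h3 : ContinuousAt (fun w => A w - c (C 1 w)) w0 := by
          have h4 := (hAd w0 hw0).continuousAt
          have h5 := (hCd 1 (by simp) w0 hw0).continuousAt
          have h6 : ContinuousAt (fun w => c (C 1 w)) w0 :=
            ContinuousAt.comp (Complex.continuous_conj.continuousAt) h5
          exact h4.sub h6
        have h4 := h3.eventually_ne (sub_ne_zero.mpr hne)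
        filter_upwards [h4, isOpen_ball.mem_nhds hw0] with w hw hwb
        rcases hcover w hwb with h5 | h5
        · exact absurd (sub_eq_zero.mpr h5) hw
        · exact h5
    obtain ⟨s, hs, w0, hw0, hev⟩ := hopen
    -- `A` has zero derivative near `w0`
    have hderiv : ∀ᶠ w in 𝓝 w0, deriv A w = 0 := by
      filter_upwards [hev.eventually_nhds, isOpen_ball.mem_nhds hw0] with w hw hwb
      exact DiscMap.deriv_zero_of_antiholo (hAd w hwb) (hCd s hs w hwb) hw
    have hAon : AnalyticOnNhd ℂ A (ball 0 1) := by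
      apply DifferentiableOn.analyticOnNhd _ isOpen_ball
      intro w hw
      exact (hAd w hw).differentiableWithinAt
    have hball_conn : IsPreconnected (ball (0 : ℂ) 1) := (convex_ball 0 1).isPreconnected
    have hderiv_all : EqOn (deriv A) 0 (ball 0 1) :=
      hAon.deriv.eqOn_zero_of_preconnected_of_eventuallyEq_zero hball_conn hw0 hderiv
    have hconst : ∀ w ∈ ball (0 : ℂ) 1, A w = A 0 := fun w hw =>
      isOpen_ball.is_const_of_deriv_eq_zero hball_conn
        (fun x hx => (hAd x hx).differentiableWithinAt) hderiv_all hw (by simp)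
    -- but `A` tends to `0` at `1` along the ball
    have hA0 : A 0 = 0 := by
      by_contra hne
      have hpos : 0 < ‖A 0‖ := norm_pos_iff.mpr hne
      obtain ⟨η, hη, hη2⟩ := hf0 ‖A 0‖ hpos
      have h3 := hends 1 (Or.inl rfl) η hη
      have h4 : Tendsto (fun t : ℝ => ((1 - t : ℝ) : ℂ)) (𝓝[>] 0) (𝓝[≠] 1) := by
        rw [tendsto_nhdsWithin_iff]
        constructor
        · have : ContinuousAt (fun t : ℝ => ((1 - t : ℝ) : ℂ)) 0 := by fun_prop
          have h5 := this.tendsto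
          simp only [sub_zero, ofReal_one] at h5
          exact h5.mono_left nhdsWithin_le_nhds
        · filter_upwards [self_mem_nhdsWithin] with t ht
          intro h5
          rw [mem_singleton_iff] at h5
          have h6 : (1 - t : ℝ) = 1 := by exact_mod_cast h5
          have h7 : (0 : ℝ) < t := ht
          linarith
      have h5 : ∀ᶠ t : ℝ in 𝓝[>] 0, t < 1 :=
        eventually_nhdsWithin_of_eventually_nhds (eventually_lt_nhds one_pos)
      obtain ⟨t, ht1, ht2, ht3⟩ := ((h4.eventually h3).and (h5.and self_mem_nhdsWithin)).exists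
      have ht3' : (0 : ℝ) < t := ht3
      have hnorm : ‖((1 - t : ℝ) : ℂ)‖ = 1 - t := by
        rw [Complex.norm_real, Real.norm_of_nonneg (by linarith)]
      have hne1 : ((1 - t : ℝ) : ℂ) ≠ 1 := by
        intro h5
        have h6 : (1 - t : ℝ) = 1 := by exact_mod_cast h5
        linarith
      have h6 := ht1 (by rw [hnorm]; linarith) hne1
      have h7 := hη2 _ h6.2
      have h8 := hconst ((1 - t : ℝ) : ℂ) (by rw [mem_ball_zero_iff, hnorm]; linarith)
      have h9 : A ((1 - t : ℝ) : ℂ) = f (H ((1 - t : ℝ) : ℂ)) := rfl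
      rw [← h9, h8] at h7
      exact lt_irrefl _ h7
    have h3 := hre 0 (by norm_num) (by simp)
    exact (hE (hpδ1 _ h3.2)).2 (hp2 _ h3.2).2.1 hA0

end Pool.Agent.Results.MP_543b58_an.AttachedDisc
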